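import Pool.Agent.Y669.TA.Chou2

/-!
# Chou's property `P` and group extensions
-/

set_option autoImplicit false

namespace Pool.Agent.Results.MP_51c6d3_al.Extensions

open Pool.Agent.Helper877.Chou Pool.Agent.Y669.TA.Chou

/-- Let `N` be a normal subgroup of `G` such that `G/N` has property `P`. Then `G` has property `P`
(1) if `N` has tiles which are invariant under conjugation in `G`: every finite subset of `N` is
contained in a finite `S ⊆ N` for which there is `X ⊆ N` such that the left translates `x S` are
disjoint and `N = S (r X r⁻¹)` for every `r ∈ G`;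
(2) if `N` is central;
(3) if `N` is finitely generated and residually finite;
(4) if every finite subset of `N` embeds in a finite section `K/M` with `K, M ≤ N` normal in `G`
(for instance if `N` is finite, or if the finite subgroups of `N` that are normal in `G` cover `N`).
(5) All nilpotent groups have property `P`. -/
theorem result :
    (∀ (G : Type) [Group G] (N : Subgroup G) [N.Normal], GTile N → PropP (G ⧸ N) → PropP G) ∧
    (∀ (G : Type) [Group G] (N : Subgroup G) [N.Normal], N ≤ Subgroup.center G →
      PropP (G ⧸ N) → PropP G) ∧
    (∀ (G : Type) [Group G] (N : Subgroup G) [N.Normal], Group.FG N → Group.ResiduallyFinite N →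
      PropP (G ⧸ N) → PropP G) ∧
    (∀ (G : Type) [Group G] (N : Subgroup G) [N.Normal], GSections N →
      PropP (G ⧸ N) → PropP G) ∧
    (∀ (G : Type) [Group G], Group.IsNilpotent G → PropP G) :=
  ⟨fun _ _ N _ h1 h2 => propP_ext N h1 h2, fun _ _ N _ h1 h2 => propP_central N h1 h2,
    fun _ _ N _ _ _ h => propP_rf_ext N h, fun _ _ N _ h1 h2 => propP_sections N h1 h2,
    fun G _ _ => propP_nilpotent G⟩

end Pool.Agent.Results.MP_51c6d3_al.Extensions
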