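import Pool.Agent.Y669.TA.Chou3

/-!
# Chou's property `P` and direct products
-/

set_option autoImplicit false

namespace Pool.Agent.Results.MP_51c6d3_al.Products

open Pool.Agent.Helper877.Chou Pool.Agent.Y669.TA.Chou

/-- The restricted direct product: the elements with only finitely many nontrivial coordinates. -/
def restricted {ι : Type} (G : ι → Type) [∀ i, Group (G i)] : Subgroup (∀ i, G i) where
  carrier := {x | {i | x i ≠ 1}.Finite}
  one_mem' := by simp
  mul_mem' := by
    intro x y hx hy
    refine (hx.union hy).subset ?_
    intro i hi
    by_contra h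
    simp only [Set.mem_union, Set.mem_ofPred_eq, not_or, not_not] at h
    exact hi (by simp [h.1, h.2])
  inv_mem' := by
    intro x hx
    refine Set.Finite.subset hx ?_
    intro i hi
    simpa using hi

/-- Let `G i` be any family of groups with property `P`. Then (1) the direct product of all `G i`,
(2) their restricted direct product, and (3) every subgroup of the direct product which projects
onto all subproducts of finitely many factors have property `P`. -/
theorem result : ∀ (ι : Type) (G : ι → Type) [∀ i, Group (G i)], (∀ i, PropP (G i)) →
    PropP (∀ i, G i) ∧ PropP (restricted G) ∧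
    ∀ H : Subgroup (∀ i, G i), (∀ (J : Finset ι) (x : ∀ i, G i), ∃ y ∈ H, ∀ i ∈ J, y i = x i) →
      PropP H := by
  classical
  intro ι G _ h
  refine ⟨?_, ?_, fun H hH => propP_pi G h H hH⟩
  · have h1 : PropP (⊤ : Subgroup (∀ i, G i)) :=
      propP_pi G h ⊤ fun J x => ⟨x, trivial, fun i _ => rfl⟩
    apply propP_of_residually
    intro F
    exact ⟨(⊤ : Subgroup (∀ i, G i)), inferInstance,
      (Subgroup.topEquiv (G := ∀ i, G i)).symm.toMonoidHom, (Subgroup.topEquiv).symm.surjective,
      (Subgroup.topEquiv).symm.injective.injOn, h1⟩
  · refine propP_pi G h _ fun J x => ⟨fun i => if i ∈ J then x i else 1, ?_, ?_⟩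
    · refine (J : Set ι).toFinite.subset ?_
      intro i hi
      by_contra hJ
      have hJ' : i ∉ J := hJ
      exact hi (by simp [hJ'])
    · intro i hi
      simp [hi]

end Pool.Agent.Results.MP_51c6d3_al.Products
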