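import Pool.Agent.Y669.TA.Chou4

/-!
# Chou's property `P` and wreath products
-/

set_option autoImplicit false

namespace Pool.Agent.Results.MP_51c6d3_al.WreathProducts

open Pool.Agent.Helper877.Chou Pool.Agent.Y669.TA.Chou

/-- The group of finitely supported functions `Q → A`. -/
def FG (Q A : Type) [CommGroup A] : Type := Fs Q A

instance instFG (Q A : Type) [CommGroup A] : CommGroup (FG Q A) :=
  inferInstanceAs (CommGroup (Fs Q A))

/-- The value of a finitely supported function. -/
def val {Q A : Type} [CommGroup A] (f : FG Q A) (q : Q) : A := Subtype.val f q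

theorem shift_finite {Q A : Type} [Group Q] [CommGroup A] (r : Q) (f : FG Q A) :
    (fun q => val f (r⁻¹ * q)) ∈ Fs Q A :=
  Set.Finite.preimage (f := fun q => r⁻¹ * q) (s := {i | val f i ≠ 1})
      (mul_right_injective r⁻¹).injOn f.2

/-- The translate `q ↦ f (r⁻¹ q)` of a finitely supported function. -/
def shift {Q A : Type} [Group Q] [CommGroup A] (r : Q) (f : FG Q A) : FG Q A :=
  ⟨fun q => val f (r⁻¹ * q), shift_finite r f⟩

theorem ext' {Q A : Type} [CommGroup A] {f g : FG Q A} (h : ∀ q, val f q = val g q) : f = g :=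
  Subtype.ext (funext h)

theorem val_shift {Q A : Type} [Group Q] [CommGroup A] (r : Q) (f : FG Q A) (q : Q) :
    val (shift r f) q = val f (r⁻¹ * q) := rfl

theorem val_mul {Q A : Type} [CommGroup A] (f g : FG Q A) (q : Q) :
    val (f * g) q = val f q * val g q := rfl

theorem val_one {Q A : Type} [CommGroup A] (q : Q) : val (1 : FG Q A) q = 1 := rfl

theorem val_inv {Q A : Type} [CommGroup A] (f : FG Q A) (q : Q) :
    val f⁻¹ q = (val f q)⁻¹ := rfl

/-- The restricted wreath product of `A` by `Q`. -/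
structure Wr (Q A : Type) [CommGroup A] : Type where
  /-- the function -/
  fn : FG Q A
  /-- the element of `Q` -/
  top : Q

variable {Q A : Type} [Group Q] [CommGroup A]

instance instMul : Mul (Wr Q A) := ⟨fun x y => ⟨x.fn * shift x.top y.fn, x.top * y.top⟩⟩

instance instOne : One (Wr Q A) := ⟨⟨1, 1⟩⟩

instance instInv : Inv (Wr Q A) := ⟨fun x => ⟨shift x.top⁻¹ x.fn⁻¹, x.top⁻¹⟩⟩

theorem mul_def (x y : Wr Q A) : x * y = ⟨x.fn * shift x.top y.fn, x.top * y.top⟩ := rfl

theorem one_def : (1 : Wr Q A) = ⟨1, 1⟩ := rfl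

theorem inv_def (x : Wr Q A) : x⁻¹ = ⟨shift x.top⁻¹ x.fn⁻¹, x.top⁻¹⟩ := rfl

theorem wr_assoc (x y z : Wr Q A) : x * y * z = x * (y * z) := by
  rw [mul_def, mul_def, mul_def, mul_def, Wr.mk.injEq]
  refine ⟨?_, mul_assoc _ _ _⟩
  apply ext'
  intro q
  simp only [val_mul, val_shift, mul_assoc, mul_inv_rev]

theorem wr_one_mul (x : Wr Q A) : 1 * x = x := by
  obtain ⟨f, r⟩ := x
  rw [mul_def, one_def, Wr.mk.injEq]
  refine ⟨?_, one_mul _⟩
  apply ext'
  intro q
  simp only [val_mul, val_shift, val_one, one_mul, inv_one]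

theorem wr_inv_mul (x : Wr Q A) : x⁻¹ * x = 1 := by
  obtain ⟨f, r⟩ := x
  rw [mul_def, one_def, inv_def, Wr.mk.injEq]
  refine ⟨?_, inv_mul_cancel _⟩
  apply ext'
  intro q
  simp only [val_mul, val_shift, val_one, val_inv, inv_mul_cancel]

instance instWr : Group (Wr Q A) := Group.ofLeftAxioms wr_assoc wr_one_mul wr_inv_mul

/-- Homomorphisms. -/
def Hom {G H : Type} [Group G] [Group H] (f : G → H) : Prop := ∀ x y, f (x * y) = f x * f y

/-- The sequence `1 → N → G → Q → 1` is exact. -/
def Exact {N G Q : Type} [Group Q] (ι : N → G) (π : G → Q) : Prop :=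
  Function.Injective ι ∧ Function.Surjective π ∧ ∀ g, π g = 1 ↔ ∃ n, ι n = g

/-- `G` acts on the functions by translation. -/
def Acts {Q A G : Type} [Group Q] [CommGroup A] [Group G] (ι : FG Q A → G) (π : G → Q) : Prop :=
  ∀ (r : G) (f : FG Q A), r * ι f * r⁻¹ = ι (shift (π r) f)

/-- `G` is an extension of `Q` by the group of finitely supported functions `Q → A`, on which it
acts by translation. -/
def IsExt (Q A G : Type) [Group Q] [CommGroup A] [Group G] : Prop :=
  ∃ (ι : FG Q A → G) (π : G → Q), Hom ι ∧ Hom π ∧ Exact ι π ∧ Acts ι π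

theorem isExt_wreath (Q A : Type) [Group Q] [CommGroup A] : IsExt Q A (Wr Q A) := by
  refine ⟨fun f => ⟨f, 1⟩, fun x => x.top, ?_, fun _ _ => rfl, ⟨?_, ?_, ?_⟩, ?_⟩
  · intro f g
    rw [mul_def, Wr.mk.injEq]
    refine ⟨?_, (mul_one _).symm⟩
    apply ext'
    intro q
    simp only [val_mul, val_shift, inv_one, one_mul]
  · intro f g h
    exact congrArg Wr.fn h
  · intro q
    exact ⟨⟨1, q⟩, rfl⟩
  · rintro ⟨f, r⟩
    constructor
    · rintro (h : r = 1)
      exact ⟨f, by rw [h]⟩
    · rintro ⟨n, hn⟩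
      exact (congrArg Wr.top hn).symm
  · rintro ⟨g, r⟩ f
    rw [mul_def, mul_def, inv_def, Wr.mk.injEq]
    constructor
    · apply ext'
      intro q
      simp only [val_mul, val_shift, val_inv, mul_one, inv_inv, mul_inv_cancel_left]
      rw [mul_comm (val g q), mul_inv_cancel_right]
    · simp only [mul_one, mul_inv_cancel]

/-- Let `Q` be a group with property `P` and `A` any abelian group. Then (1) the restricted wreath
product `A ≀ Q` has property `P`; (2) so does every extension of `Q` by the group `A^(Q)` of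
finitely supported functions `Q → A` on which `Q` acts by translation, split or not. -/
theorem result : ∀ (Q A : Type) [Group Q] [CommGroup A], PropP Q →
    PropP (Wr Q A) ∧ ∀ (G : Type) [Group G], IsExt Q A G → PropP G := by
  intro Q A _ _ hQ
  have h2 : ∀ (G : Type) [Group G], IsExt Q A G → PropP G := by
    rintro G _ ⟨ι, π, h1, h2, ⟨hι, hπ, hex⟩, hact⟩
    refine propP_wreath (A := A) (MonoidHom.mk' π h2) hπ
      (MonoidHom.mk' (M := Fs Q A) (G := G) ι h1) hι ?_ ?_ hQ
    · ext g
      rw [MonoidHom.mem_ker]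
      exact (hex g).symm
    · intro r f f' h
      have : f' = shift (π r) f := ext' h
      rw [this]
      exact hact r f
  exact ⟨h2 _ (isExt_wreath Q A), h2⟩

end Pool.Agent.Results.MP_51c6d3_al.WreathProducts
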